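import Mathlib
import Pool.Agent.Helper76.FT.GoalsC

/-! Proof of `GOpen` (packet FT-OPEN of MP_39e2b7_an). -/

set_option autoImplicit false

open Complex Set Filter Topology

namespace Pool.Agent.Helper31.FT

open Pool.Agent.Helper76.FT

theorem isOpen_Str (ρ : ℝ) : IsOpen (Str ρ) :=
  isOpen_lt (continuous_abs.comp Complex.continuous_im) continuous_const

theorem ofReal_mem_Str {ρ : ℝ} (hρ : 0 < ρ) (x : ℝ) : (x : ℂ) ∈ Str ρ := by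
  simp [Str, hρ]

theorem Str_mono {ρ ρ' : ℝ} (h : ρ' ≤ ρ) : Str ρ' ⊆ Str ρ := fun _ hz => lt_of_lt_of_le hz h

theorem add_one_mem_Str {ρ : ℝ} {z : ℂ} : z + 1 ∈ Str ρ ↔ z ∈ Str ρ := by
  simp [Str]

theorem SH.restrict {f : ℂ → ℝ → ℂ} {ρ ρ' : ℝ} (h : SH f ρ) (hρ : ρ' ≤ ρ) : SH f ρ' where
  hol t ht := (h.hol t ht).mono (Str_mono hρ)
  cont := h.cont.mono (prod_mono (Str_mono hρ) Subset.rfl)
  per z hz t ht := h.per z (Str_mono hρ hz) t ht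

/-- tube lemma on a strip -/
theorem tube (Q : ℝ → ℂ → ℂ → Prop) (ρ0 : ℝ) (hρ0 : 0 < ρ0)
    (hper : ∀ t ∈ Icc (0:ℝ) 1, ∀ z ∈ Str ρ0, ∀ u : ℂ, Q t z u ↔ Q t (z + 1) u)
    (hev : ∀ t ∈ Icc (0:ℝ) 1, ∀ x : ℝ,
      ∀ᶠ y : ℝ × ℂ × ℂ in 𝓝[{y | y.1 ∈ Icc (0:ℝ) 1}] (t, (x : ℂ), 0), Q y.1 y.2.1 y.2.2) :
    ∃ d : ℝ, 0 < d ∧ d ≤ ρ0 ∧ ∀ t ∈ Icc (0:ℝ) 1, ∀ z ∈ Str d, ∀ u : ℂ, ‖u‖ < d → Q t z u := by
  have hK : IsCompact (Icc (0:ℝ) 1 ×ˢ Icc (0:ℝ) 1) := isCompact_Icc.prod isCompact_Icc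
  have h1 : ∀ᶠ ξ : ℂ × ℂ in 𝓝 (0, 0), ∀ y ∈ Icc (0:ℝ) 1 ×ˢ Icc (0:ℝ) 1,
      y.2 ∈ Icc (0:ℝ) 1 → Q y.2 ((y.1 : ℂ) + ξ.1) ξ.2 := by
    refine hK.eventually_forall_of_forall_eventually
      (P := fun (ξ : ℂ × ℂ) (y : ℝ × ℝ) => y.2 ∈ Icc (0:ℝ) 1 → Q y.2 ((y.1 : ℂ) + ξ.1) ξ.2) ?_
    rintro ⟨x, t⟩ ⟨hx, ht⟩
    have h2 := hev t ht x
    rw [eventually_nhdsWithin_iff] at h2
    have h3 : Tendsto (fun z : (ℂ × ℂ) × (ℝ × ℝ) => (z.2.2, (z.2.1 : ℂ) + z.1.1, z.1.2))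
        (𝓝 ((0, 0), (x, t))) (𝓝 (t, (x : ℂ), 0)) := by
      have h4 : Continuous (fun z : (ℂ × ℂ) × (ℝ × ℝ) => (z.2.2, (z.2.1 : ℂ) + z.1.1, z.1.2)) := by
        fun_prop
      have h5 := h4.tendsto ((0, 0), (x, t))
      simpa using h5
    exact h3.eventually h2
  obtain ⟨d, hd, hd2⟩ := Metric.eventually_nhds_iff.1 h1
  refine ⟨min d ρ0, lt_min hd hρ0, min_le_right _ _, ?_⟩
  intro t ht z hz u hu
  have key : ∀ (x η : ℝ), x ∈ Icc (0:ℝ) 1 → |η| < d → |η| < ρ0 → Q t ((x : ℂ) + η * I) u := by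
    intro x η hx hη _
    have h6 := hd2 (y := ((η * I : ℂ), u)) (by
      rw [Prod.dist_eq, max_lt_iff]
      constructor
      · simpa [dist_eq_norm] using hη
      · simpa [dist_eq_norm] using lt_of_lt_of_le hu (min_le_left _ _)) (x, t) ⟨hx, ht⟩ ht
    simpa using h6
  have hz1 : |z.im| < d := lt_of_lt_of_le hz (min_le_left _ _)
  have hz2 : |z.im| < ρ0 := lt_of_lt_of_le hz (min_le_right _ _)
  have h7 := key (Int.fract z.re) z.im ⟨Int.fract_nonneg _, (Int.fract_lt_one _).le⟩ hz1 hz2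
  have h8 : ∀ n : ℤ, Q t (((Int.fract z.re : ℝ) : ℂ) + z.im * I + n) u := by
    intro n
    induction n using Int.induction_on with
    | zero => simpa using h7
    | succ n ih =>
      have h9 := (hper t ht _ (by simpa [Str] using hz2) u).1 ih
      have h10 : (((Int.fract z.re : ℝ) : ℂ) + z.im * I + ((n : ℤ) + 1 : ℤ) : ℂ)
          = ((Int.fract z.re : ℝ) : ℂ) + z.im * I + (n : ℤ) + 1 := by push_cast; ring
      rw [h10]; exact h9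
    | pred n ih =>
      have h9 := (hper t ht (((Int.fract z.re : ℝ) : ℂ) + z.im * I + (-(n : ℤ) - 1 : ℤ))
        (by simpa [Str] using hz2) u).2
      apply h9
      have h10 : (((Int.fract z.re : ℝ) : ℂ) + z.im * I + ((-(n : ℤ) - 1 : ℤ)) + 1 : ℂ)
          = ((Int.fract z.re : ℝ) : ℂ) + z.im * I + (-(n : ℤ) : ℤ) := by push_cast; ring
      rw [h10]; exact ih
  have h11 := h8 ⌊z.re⌋
  have h12 : (((Int.fract z.re : ℝ) : ℂ) + z.im * I + (⌊z.re⌋ : ℤ) : ℂ) = z := by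
    apply Complex.ext
    · simp [Int.fract_add_floor]
    · simp
  rwa [h12] at h11

/-- `Pb` is jointly open -/
theorem Pb_ev (S : Sys) (hS : S.Ok) (hReg : GReg) (hMom : GMom) (r : ℝ) (t : ℝ)
    (ht : t ∈ Icc (0:ℝ) 1) (z : ℂ × ℂ) (hz : z ∈ Pb S t r) :
    ∀ᶠ y : ℝ × (ℂ × ℂ) in 𝓝[{y | y.1 ∈ Icc (0:ℝ) 1}] (t, z), y.2 ∈ Pb S y.1 r := by
  obtain ⟨y, hy, h1, h2⟩ := hz
  obtain ⟨k0, M, _, _, hpc, _, _⟩ := hMom S hS
  have hline := (hReg S hS).2.2.1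
  -- the real point moved to the time `s`
  set f : ℝ × (ℂ × ℂ) → ℝ × (ℂ × ℂ) :=
    fun v => (v.1, (((y.1 + (v.1 - t) * y.2 : ℝ) : ℂ), ((y.2 : ℝ) : ℂ))) with hf
  have hfc : Continuous f := by
    rw [hf]
    fun_prop
  have hmem : ∀ v : ℝ × (ℂ × ℂ), v.1 ∈ Icc (0:ℝ) 1 →
      f v ∈ {y : ℝ × (ℂ × ℂ) | y.1 ∈ Icc (0:ℝ) 1 ∧ y.2 ∈ S.Nb y.1 S.r} := by
    intro v hv
    refine ⟨hv, (y.1 + (v.1 - t) * y.2, y.2), hline t ht v.1 hv y hy, ?_, ?_⟩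
    · simpa [hf] using hS.hr
    · simpa [hf] using hS.hr
  have hft : f (t, z) = (t, ((y.1 : ℂ), (y.2 : ℂ))) := by
    simp [hf]
  have h3 : Tendsto (fun v => S.p (f v).1 (f v).2.1 (f v).2.2)
      (𝓝[{y | y.1 ∈ Icc (0:ℝ) 1}] (t, z)) (𝓝 (S.p t (y.1 : ℂ) (y.2 : ℂ))) := by
    have h4 := hpc (f (t, z)) (hmem (t, z) ht)
    have h5 : Tendsto f (𝓝[{y | y.1 ∈ Icc (0:ℝ) 1}] (t, z))
        (𝓝[{y : ℝ × (ℂ × ℂ) | y.1 ∈ Icc (0:ℝ) 1 ∧ y.2 ∈ S.Nb y.1 S.r}] (f (t, z))) := by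
      refine tendsto_nhdsWithin_iff.2 ⟨(hfc.tendsto _).mono_left nhdsWithin_le_nhds, ?_⟩
      filter_upwards [self_mem_nhdsWithin] with v hv
      exact hmem v hv
    have h6 := h4.tendsto.comp h5
    rw [hft] at h6
    exact h6
  have h7 : ∀ᶠ v : ℝ × (ℂ × ℂ) in 𝓝[{y | y.1 ∈ Icc (0:ℝ) 1}] (t, z),
      ‖v.2.2 - S.p (f v).1 (f v).2.1 (f v).2.2‖ < r := by
    have h8 : Tendsto (fun v : ℝ × (ℂ × ℂ) => ‖v.2.2 - S.p (f v).1 (f v).2.1 (f v).2.2‖)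
        (𝓝[{y | y.1 ∈ Icc (0:ℝ) 1}] (t, z)) (𝓝 ‖z.2 - S.p t (y.1 : ℂ) (y.2 : ℂ)‖) := by
      refine Tendsto.norm (Tendsto.sub ?_ h3)
      have h9 : Continuous (fun v : ℝ × (ℂ × ℂ) => v.2.2) := by fun_prop
      exact (h9.tendsto (t, z)).mono_left nhdsWithin_le_nhds
    exact h8.eventually (eventually_lt_nhds h2)
  have h10 : ∀ᶠ v : ℝ × (ℂ × ℂ) in 𝓝[{y | y.1 ∈ Icc (0:ℝ) 1}] (t, z),
      ‖v.2.1 - (f v).2.1‖ < r := by
    have h8 : Tendsto (fun v : ℝ × (ℂ × ℂ) => ‖v.2.1 - (f v).2.1‖)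
        (𝓝[{y | y.1 ∈ Icc (0:ℝ) 1}] (t, z)) (𝓝 ‖z.1 - (y.1 : ℂ)‖) := by
      have h9 : Continuous (fun v : ℝ × (ℂ × ℂ) => ‖v.2.1 - (f v).2.1‖) := by fun_prop
      have h11 := (h9.tendsto (t, z)).mono_left (nhdsWithin_le_nhds (s := {y | y.1 ∈ Icc (0:ℝ) 1}))
      simpa [hft] using h11
    exact h8.eventually (eventually_lt_nhds h1)
  filter_upwards [h7, h10, self_mem_nhdsWithin] with v hv1 hv2 hv3
  exact ⟨(y.1 + (v.1 - t) * y.2, y.2), hline t ht v.1 hv3 y hy, hv2, hv1⟩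

theorem Reg_sub_one (S : Sys) (hS : S.Ok) (t : ℝ) (ht : t ∈ Icc (0:ℝ) 1) (y : ℝ × ℝ)
    (hy : y ∈ S.Reg t) : (y.1 - 1, y.2) ∈ S.Reg t := by
  have ha : S.a ∈ Icc S.a S.b := ⟨le_rfl, (hS.ha.trans hS.hb).le⟩
  have hb : S.b ∈ Icc S.a S.b := ⟨(hS.ha.trans hS.hb).le, le_rfl⟩
  have h1 := hS.Vper S.a ha (y.1 - 1) t ht
  have h2 := hS.Vper S.b hb (y.1 - 1) t ht
  simp only [sub_add_cancel] at h1 h2
  refine ⟨?_, ?_⟩
  · show S.V S.a (y.1 - 1) t ≤ y.2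
    rw [← h1]; exact hy.1
  · show y.2 ≤ S.V S.b (y.1 - 1) t
    rw [← h2]; exact hy.2

theorem Pb_sub_one (S : Sys) (hS : S.Ok) (hMom : GMom) (r : ℝ) (t : ℝ)
    (ht : t ∈ Icc (0:ℝ) 1) (z : ℂ × ℂ) (hz : (z.1 + 1, z.2) ∈ Pb S t r) : z ∈ Pb S t r := by
  obtain ⟨y, hy, h1, h2⟩ := hz
  obtain ⟨k0, M, _, _, _, _, hp⟩ := hMom S hS
  have hy' := Reg_sub_one S hS t ht y hy
  refine ⟨(y.1 - 1, y.2), hy', ?_, ?_⟩
  · have h3 : z.1 - ((y.1 - 1 : ℝ) : ℂ) = z.1 + 1 - (y.1 : ℂ) := by push_cast; ring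
    show ‖z.1 - ((y.1 - 1 : ℝ) : ℂ)‖ < r
    rw [h3]; exact h1
  · have h4 : (((y.1 - 1 : ℝ) : ℂ), ((y.2 : ℝ) : ℂ)) ∈ S.Nb t S.r :=
      ⟨(y.1 - 1, y.2), hy', by simpa using hS.hr, by simpa using hS.hr⟩
    have h5 := ((hp t ht).2.2 _ h4).2.2.2.2.2.2.2.1
    simp only at h5
    have h6 : (((y.1 - 1 : ℝ) : ℂ) + 1) = (y.1 : ℂ) := by push_cast; ring
    rw [h6] at h5
    show ‖z.2 - S.p t ((y.1 - 1 : ℝ) : ℂ) ((y.2 : ℝ) : ℂ)‖ < r
    rw [← h5]; exact h2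

/-- positive minimum of the imaginary part on the real line -/
theorem exists_min_im {w : ℂ → ℝ → ℂ} {ρ : ℝ} (hρ : 0 < ρ) (hw : SH w ρ)
    (hpos : ∀ x : ℝ, ∀ t ∈ Icc (0:ℝ) 1, 0 < (w (x : ℂ) t).im) :
    ∃ h : ℝ, 0 < h ∧ ∀ x : ℝ, ∀ t ∈ Icc (0:ℝ) 1, h < (w (x : ℂ) t).im := by
  have hK : IsCompact (Icc (0:ℝ) 1 ×ˢ Icc (0:ℝ) 1) := isCompact_Icc.prod isCompact_Icc
  have hc : ContinuousOn (fun y : ℝ × ℝ => (w (y.1 : ℂ) y.2).im)
      (Icc (0:ℝ) 1 ×ˢ Icc (0:ℝ) 1) := by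
    have h1 : ContinuousOn (fun y : ℝ × ℝ => w (y.1 : ℂ) y.2) (Icc (0:ℝ) 1 ×ˢ Icc (0:ℝ) 1) := by
      refine hw.cont.comp (f := fun y : ℝ × ℝ => ((y.1 : ℂ), y.2)) ?_ ?_
      · exact Continuous.continuousOn (by fun_prop)
      · rintro y ⟨_, hy⟩
        exact ⟨ofReal_mem_Str hρ _, hy⟩
    exact Complex.continuous_im.comp_continuousOn h1
  obtain ⟨y0, hy0, hmin⟩ := hK.exists_isMinOn ⟨(0, 0), by simp⟩ hc
  have hper : ∀ t ∈ Icc (0:ℝ) 1, ∀ (n : ℤ) (x : ℝ), w ((x : ℂ) + n) t = w (x : ℂ) t := by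
    intro t ht n x
    induction n using Int.induction_on with
    | zero => simp
    | succ n ih =>
      have h9 := hw.per ((x : ℂ) + ((n : ℤ) : ℂ)) (by simp [Str, hρ]) t ht
      rw [← ih, ← h9]
      congr 1
      push_cast; ring
    | pred n ih =>
      have h9 := hw.per ((x : ℂ) + ((-(n : ℤ) - 1 : ℤ) : ℂ)) (by simp [Str, hρ]) t ht
      rw [← ih, ← h9]
      congr 1
      push_cast; ring
  refine ⟨(w (y0.1 : ℂ) y0.2).im / 2, half_pos (hpos y0.1 y0.2 hy0.2), ?_⟩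
  intro x t ht
  have h1 : w (x : ℂ) t = w ((Int.fract x : ℝ) : ℂ) t := by
    rw [← hper t ht ⌊x⌋ (Int.fract x)]
    congr 1
    rw [← Complex.ofReal_intCast, ← Complex.ofReal_add, Int.fract_add_floor]
  rw [h1]
  have h2 : (w (y0.1 : ℂ) y0.2).im ≤ (w ((Int.fract x : ℝ) : ℂ) t).im :=
    hmin (show (Int.fract x, t) ∈ Icc (0:ℝ) 1 ×ˢ Icc (0:ℝ) 1 from
      ⟨⟨Int.fract_nonneg _, (Int.fract_lt_one _).le⟩, ht⟩)
  have h3 := hpos y0.1 y0.2 hy0.2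
  linarith

theorem ft_open : GReg → GMom → GTorP → GW → GE → GShrink → GToPhi → GFromPhi → GNewton →
    GOpen := by
  intro hReg hMom hTorP hW hE hShrink hToPhi hFromPhi hNewton S hS
  obtain ⟨W, r₂, r₃, M, k₀, hWF⟩ := hW S hS
  obtain ⟨δf, hδf, hFP⟩ := hFromPhi S hS W r₂ r₃ M k₀ hWF
  refine ⟨min δf (r₃ / 2), lt_min hδf (half_pos hWF.h3), ?_⟩
  intro δ ρ w c hδ hST
  obtain ⟨hT, hstr⟩ := hST
  have hδf' : δ ≤ δf := hδ.trans (min_le_left _ _)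
  have hδr : δ < r₃ := by
    have h1 : δ ≤ r₃ / 2 := hδ.trans (min_le_right _ _)
    have h2 := hWF.h3
    linarith
  have ha : S.a ∈ Icc S.a S.b := ⟨le_rfl, (hS.ha.trans hS.hb).le⟩
  have hb : S.b ∈ Icc S.a S.b := ⟨(hS.ha.trans hS.hb).le, le_rfl⟩
  -- restriction of the strip
  obtain ⟨hsub, ρ', hρ', hρ'ρ, hnb⟩ := hShrink S hS r₃ δ ρ w c hδr hT
  set ρ0 : ℝ := min ρ' 1 with hρ0def
  have hρ0 : 0 < ρ0 := lt_min hρ' one_pos
  have hρ0' : ρ0 ≤ ρ' := min_le_left _ _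
  have hρ01 : ρ0 ≤ 1 := min_le_right _ _
  have hT0 : Tor S δ w ρ0 c := hsub ρ0 hρ0 (hρ0'.trans hρ'ρ)
  have hnb0 : ∀ z ∈ Str ρ0, ∀ t ∈ Icc (0:ℝ) 1, (z, w z t) ∈ S.Nb t r₃ :=
    fun z hz t ht => hnb z (Str_mono hρ0' hz) t ht
  obtain ⟨φ, e, hH, hP⟩ := hToPhi S hS W r₂ r₃ M k₀ hWF δ ρ0 w c hT0 hnb0
  obtain ⟨k0, M2, hk0, hM2, hTP⟩ := hTorP S hS
  obtain ⟨hPsh, -, -, -, -, -, -⟩ := hTP δ ρ0 w c hT0
  set P : ℂ → ℝ → ℂ := fun z t => S.p t z (w z t) with hPdef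
  have hP1 : ∀ z ∈ Str ρ0, ∀ t ∈ Icc (0:ℝ) 1, c + dz φ z t = P z t :=
    fun z hz t ht => (hP z hz t ht).1
  have hP2 : ∀ z ∈ Str ρ0, ∀ t ∈ Icc (0:ℝ) 1, W t z (P z t) = w z t := by
    intro z hz t ht
    rw [← hP1 z hz t ht]
    exact (hP z hz t ht).2
  obtain ⟨hEc, ⟨M', hEM⟩, hEt⟩ := hE S hS W r₂ r₃ M k₀ hWF
  obtain ⟨h, hh, hhmin⟩ := exists_min_im hρ0 hT0.sh (fun x t ht => (hT.pos x t ht).1)
  -- the good set
  set Q : ℝ → ℂ → ℂ → Prop := fun t z u =>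
    (z, P z t + u) ∈ Pb S t r₂ ∧ h < (W t z (P z t + u)).im ∧ (W t z (P z t + u)).im < δ ∧
      S.V S.a z.re t < (W t z (P z t + u)).re ∧ (W t z (P z t + u)).re < S.V S.b z.re t with hQ
  have hQper : ∀ t ∈ Icc (0:ℝ) 1, ∀ z ∈ Str ρ0, ∀ u : ℂ, Q t z u ↔ Q t (z + 1) u := by
    intro t ht z hz u
    have h1 : P (z + 1) t = P z t := hPsh.per z hz t ht
    have h2 : S.V S.a (z + 1).re t = S.V S.a z.re t := by
      have := hS.Vper S.a ha z.re t ht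
      simpa using this
    have h3 : S.V S.b (z + 1).re t = S.V S.b z.re t := by
      have := hS.Vper S.b hb z.re t ht
      simpa using this
    constructor
    · rintro ⟨q1, q2, q3, q4, q5⟩
      obtain ⟨p1, p2⟩ := hWF.per t ht _ q1
      simp only at p1 p2
      refine ⟨?_, ?_, ?_, ?_, ?_⟩
      · rw [h1]; exact p1
      · rw [h1, p2]; exact q2
      · rw [h1, p2]; exact q3
      · rw [h1, p2, h2]; exact q4
      · rw [h1, p2, h3]; exact q5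
    · rintro ⟨q1, q2, q3, q4, q5⟩
      rw [h1] at q1 q2 q3 q4 q5
      rw [h2] at q4
      rw [h3] at q5
      have q0 : (z, P z t + u) ∈ Pb S t r₂ := Pb_sub_one S hS hMom r₂ t ht (z, P z t + u) q1
      obtain ⟨p1, p2⟩ := hWF.per t ht _ q0
      simp only at p1 p2
      rw [p2] at q2 q3 q4 q5
      exact ⟨q0, q2, q3, q4, q5⟩
  have hQev : ∀ t ∈ Icc (0:ℝ) 1, ∀ x : ℝ,
      ∀ᶠ y : ℝ × ℂ × ℂ in 𝓝[{y | y.1 ∈ Icc (0:ℝ) 1}] (t, (x : ℂ), 0), Q y.1 y.2.1 y.2.2 := by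
    intro t ht x
    have hx : (x : ℂ) ∈ Str ρ0 := ofReal_mem_Str hρ0 x
    have e1 : ∀ᶠ y : ℝ × ℂ × ℂ in 𝓝[{y | y.1 ∈ Icc (0:ℝ) 1}] (t, (x : ℂ), 0),
        y.2.1 ∈ Str ρ0 := by
      have c1 : Continuous (fun y : ℝ × ℂ × ℂ => y.2.1) := by fun_prop
      exact ((c1.tendsto (t, (x : ℂ), (0:ℂ))).mono_left nhdsWithin_le_nhds).eventually
        ((isOpen_Str ρ0).mem_nhds hx)
    have c2 : Tendsto (fun y : ℝ × ℂ × ℂ => P y.2.1 y.1)
        (𝓝[{y | y.1 ∈ Icc (0:ℝ) 1}] (t, (x : ℂ), 0)) (𝓝 (P x t)) := by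
      have c3 := hPsh.cont ((x : ℂ), t) ⟨hx, ht⟩
      have c4 : Tendsto (fun y : ℝ × ℂ × ℂ => (y.2.1, y.1))
          (𝓝[{y | y.1 ∈ Icc (0:ℝ) 1}] (t, (x : ℂ), 0))
          (𝓝[Str ρ0 ×ˢ Icc (0:ℝ) 1] ((x : ℂ), t)) := by
        refine tendsto_nhdsWithin_iff.2 ⟨?_, ?_⟩
        · have c5 : Continuous (fun y : ℝ × ℂ × ℂ => (y.2.1, y.1)) := by fun_prop
          exact (c5.tendsto (t, (x : ℂ), (0:ℂ))).mono_left nhdsWithin_le_nhds
        · filter_upwards [e1, self_mem_nhdsWithin] with y hy1 hy2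
          exact ⟨hy1, hy2⟩
      exact c3.tendsto.comp c4
    have c6 : Tendsto (fun y : ℝ × ℂ × ℂ => (y.1, (y.2.1, P y.2.1 y.1 + y.2.2)))
        (𝓝[{y | y.1 ∈ Icc (0:ℝ) 1}] (t, (x : ℂ), 0)) (𝓝 (t, ((x : ℂ), P x t))) := by
      have d1 : Continuous (fun y : ℝ × ℂ × ℂ => y.1) := by fun_prop
      have d2 : Continuous (fun y : ℝ × ℂ × ℂ => y.2.1) := by fun_prop
      have d3 : Continuous (fun y : ℝ × ℂ × ℂ => y.2.2) := by fun_prop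
      have d4 := (d3.tendsto (t, (x : ℂ), (0:ℂ))).mono_left
        (nhdsWithin_le_nhds (s := {y | y.1 ∈ Icc (0:ℝ) 1}))
      have d5 := c2.add d4
      simp only [add_zero] at d5
      exact ((d1.tendsto (t, (x : ℂ), (0:ℂ))).mono_left nhdsWithin_le_nhds).prodMk_nhds
        (((d2.tendsto (t, (x : ℂ), (0:ℂ))).mono_left nhdsWithin_le_nhds).prodMk_nhds d5)
    have hx0 : ((x : ℂ), P x t) ∈ Pb S t r₂ := by
      rw [← hP1 x hx t ht]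
      exact hH.dom x hx t ht
    have e2 : ∀ᶠ y : ℝ × ℂ × ℂ in 𝓝[{y | y.1 ∈ Icc (0:ℝ) 1}] (t, (x : ℂ), 0),
        (y.2.1, P y.2.1 y.1 + y.2.2) ∈ Pb S y.1 r₂ := by
      have e3 := Pb_ev S hS hReg hMom r₂ t ht ((x : ℂ), P x t) hx0
      have c7 : Tendsto (fun y : ℝ × ℂ × ℂ => (y.1, (y.2.1, P y.2.1 y.1 + y.2.2)))
        (𝓝[{y | y.1 ∈ Icc (0:ℝ) 1}] (t, (x : ℂ), 0))
        (𝓝[{y | y.1 ∈ Icc (0:ℝ) 1}] (t, ((x : ℂ), P x t))) := by
        refine tendsto_nhdsWithin_iff.2 ⟨c6, ?_⟩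
        filter_upwards [self_mem_nhdsWithin] with y hy
        exact hy
      exact c7.eventually e3
    have c8 : Tendsto (fun y : ℝ × ℂ × ℂ => W y.1 y.2.1 (P y.2.1 y.1 + y.2.2))
        (𝓝[{y | y.1 ∈ Icc (0:ℝ) 1}] (t, (x : ℂ), 0)) (𝓝 (w x t)) := by
      have c9 := hWF.cont (t, ((x : ℂ), P x t)) ⟨ht, hx0⟩
      have c10 : Tendsto (fun y : ℝ × ℂ × ℂ => (y.1, (y.2.1, P y.2.1 y.1 + y.2.2)))
          (𝓝[{y | y.1 ∈ Icc (0:ℝ) 1}] (t, (x : ℂ), 0))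
          (𝓝[{y | y.1 ∈ Icc (0:ℝ) 1 ∧ y.2 ∈ Pb S y.1 r₂}] (t, ((x : ℂ), P x t))) := by
        refine tendsto_nhdsWithin_iff.2 ⟨c6, ?_⟩
        filter_upwards [e2, self_mem_nhdsWithin] with y hy1 hy2
        exact ⟨hy2, hy1⟩
      have c11 := c9.tendsto.comp c10
      have c12 : W t (x : ℂ) (P x t) = w x t := hP2 x hx t ht
      simp only at c11
      rw [c12] at c11
      exact c11
    have c13 : Tendsto (fun y : ℝ × ℂ × ℂ => (W y.1 y.2.1 (P y.2.1 y.1 + y.2.2)).im)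
        (𝓝[{y | y.1 ∈ Icc (0:ℝ) 1}] (t, (x : ℂ), 0)) (𝓝 (w x t).im) :=
      (Complex.continuous_im.tendsto _).comp c8
    have c14 : Tendsto (fun y : ℝ × ℂ × ℂ => (W y.1 y.2.1 (P y.2.1 y.1 + y.2.2)).re)
        (𝓝[{y | y.1 ∈ Icc (0:ℝ) 1}] (t, (x : ℂ), 0)) (𝓝 (w x t).re) :=
      (Complex.continuous_re.tendsto _).comp c8
    have c15 : ∀ Y ∈ Icc S.a S.b, Tendsto (fun y : ℝ × ℂ × ℂ => S.V Y y.2.1.re y.1)
        (𝓝[{y | y.1 ∈ Icc (0:ℝ) 1}] (t, (x : ℂ), 0)) (𝓝 (S.V Y x t)) := by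
      intro Y hY
      have c16 := hS.Vcont (Y, x, t) ⟨hY, mem_univ _, ht⟩
      have c17 : Tendsto (fun y : ℝ × ℂ × ℂ => (Y, y.2.1.re, y.1))
          (𝓝[{y | y.1 ∈ Icc (0:ℝ) 1}] (t, (x : ℂ), 0))
          (𝓝[Icc S.a S.b ×ˢ (univ ×ˢ Icc (0:ℝ) 1)] (Y, x, t)) := by
        refine tendsto_nhdsWithin_iff.2 ⟨?_, ?_⟩
        · have c5 : Continuous (fun y : ℝ × ℂ × ℂ => (Y, y.2.1.re, y.1)) :=
            continuous_const.prodMk ((Complex.continuous_re.comp (by fun_prop)).prodMk (by fun_prop))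
          have c6 := (c5.tendsto (t, (x : ℂ), (0:ℂ))).mono_left
            (nhdsWithin_le_nhds (s := {y | y.1 ∈ Icc (0:ℝ) 1}))
          simpa using c6
        · filter_upwards [self_mem_nhdsWithin] with y hy
          exact ⟨hY, mem_univ _, hy⟩
      exact c16.tendsto.comp c17
    have s1 := c13.eventually (eventually_gt_nhds (hhmin x t ht))
    have s2 := c13.eventually (eventually_lt_nhds (hstr x t ht).1)
    have s3 := (c15 S.a ha).eventually_lt c14 (hstr x t ht).2.1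
    have s4 := c14.eventually_lt (c15 S.b hb) (hstr x t ht).2.2
    filter_upwards [e2, s1, s2, s3, s4] with y y1 y2 y3 y4 y5
    exact ⟨y1, y2, y3, y4, y5⟩
  obtain ⟨d, hd, hdρ, hQd⟩ := tube Q ρ0 hρ0 hQper hQev
  -- the Newton method
  have hM1 : 0 < 2 * |M'| + 1 := by positivity
  obtain ⟨ε0, C, hε0, hC, hNw⟩ := hNewton d (d / 2) (2 * |M'| + 1) h hd (hdρ.trans hρ01)
    (half_pos hd) hM1 hh
  refine ⟨min (d / 2) (ε0 / (|M| + 1)), lt_min (half_pos hd) (by positivity), ?_⟩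
  intro c' hc'
  set a : ℂ := c' - c with hadef
  have ha1 : ‖a‖ < d / 2 := lt_of_lt_of_le hc' (min_le_left _ _)
  have ha2 : (|M| + 1) * ‖a‖ ≤ ε0 := by
    have h1 : ‖a‖ < ε0 / (|M| + 1) := lt_of_lt_of_le hc' (min_le_right _ _)
    have h2 : 0 < |M| + 1 := by positivity
    rw [lt_div_iff₀ h2] at h1
    linarith [mul_comm ‖a‖ (|M| + 1)]
  have hM'0 : ∀ t ∈ Icc (0:ℝ) 1, ∀ z ∈ Pb S t r₂, ‖Ef W t z.1 z.2‖ ≤ |M'| :=
    fun t ht z hz => (hEM t ht z hz).trans (le_abs_self _)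
  have hsubd : Str d ⊆ Str ρ0 := Str_mono hdρ
  have hPb : ∀ t ∈ Icc (0:ℝ) 1, ∀ z ∈ Str d, ∀ u : ℂ, ‖u‖ < d → (z, P z t + u) ∈ Pb S t r₂ :=
    fun t ht z hz u hu => (hQd t ht z hz u hu).1
  have hau : ∀ u : ℂ, ‖u‖ < d / 2 → ‖a + u‖ < d := by
    intro u hu
    calc ‖a + u‖ ≤ ‖a‖ + ‖u‖ := norm_add_le _ _
      _ < d / 2 + d / 2 := add_lt_add ha1 hu
      _ = d := by ring
  set N : ℂ → ℝ → ℂ → ℂ := fun z t u => Ef W t z (P z t + (a + u)) - Ef W t z (P z t) with hN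
  have hPb0 : ∀ t ∈ Icc (0:ℝ) 1, ∀ z ∈ Str d, (z, P z t) ∈ Pb S t r₂ := by
    intro t ht z hz
    have := hPb t ht z hz 0 (by simpa using hd)
    simpa using this
  have hNL : NL N d (d / 2) (2 * |M'| + 1) h := by
    refine ⟨?_, ?_, ?_, ?_, ?_⟩
    · intro t ht
      have g1 := (hEt t ht).1
      have g2 : DifferentiableOn ℂ (fun p : ℂ × ℂ => (p.1, P p.1 t + (a + p.2)))
          (Str d ×ˢ Metric.ball (0:ℂ) (d / 2)) := by
        have g3 : DifferentiableOn ℂ (fun p : ℂ × ℂ => P p.1 t)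
            (Str d ×ˢ Metric.ball (0:ℂ) (d / 2)) := by
          refine ((hPsh.hol t ht).mono hsubd).comp (differentiableOn_fst) ?_
          rintro p ⟨hp, _⟩
          exact hp
        exact differentiableOn_fst.prodMk (g3.add ((differentiableOn_const _).add differentiableOn_snd))
      have g4 : DifferentiableOn ℂ (fun p : ℂ × ℂ => (p.1, P p.1 t))
          (Str d ×ˢ Metric.ball (0:ℂ) (d / 2)) := by
        have g3 : DifferentiableOn ℂ (fun p : ℂ × ℂ => P p.1 t)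
            (Str d ×ˢ Metric.ball (0:ℂ) (d / 2)) := by
          refine ((hPsh.hol t ht).mono hsubd).comp (differentiableOn_fst) ?_
          rintro p ⟨hp, _⟩
          exact hp
        exact differentiableOn_fst.prodMk g3
      refine DifferentiableOn.sub (g1.comp g2 ?_) (g1.comp g4 ?_)
      · rintro p ⟨hp1, hp2⟩
        exact hPb t ht p.1 hp1 _ (hau p.2 (by simpa using hp2))
      · rintro p ⟨hp1, hp2⟩
        exact hPb0 t ht p.1 hp1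
    · have g3 : ContinuousOn (fun q : ℂ × ℝ × ℂ => P q.1 q.2.1)
          (Str d ×ˢ (Icc (0:ℝ) 1 ×ˢ Metric.ball (0:ℂ) (d / 2))) := by
        refine (hPsh.cont).comp (f := fun q : ℂ × ℝ × ℂ => (q.1, q.2.1)) ?_ ?_
        · exact Continuous.continuousOn (by fun_prop)
        · rintro q ⟨hq1, hq2, _⟩
          exact ⟨hsubd hq1, hq2⟩
      have g5 : ContinuousOn (fun q : ℂ × ℝ × ℂ => a + q.2.2)
          (Str d ×ˢ (Icc (0:ℝ) 1 ×ˢ Metric.ball (0:ℂ) (d / 2))) :=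
        Continuous.continuousOn (by fun_prop)
      have g6 : ContinuousOn (fun q : ℂ × ℝ × ℂ => q.1)
          (Str d ×ˢ (Icc (0:ℝ) 1 ×ˢ Metric.ball (0:ℂ) (d / 2))) :=
        Continuous.continuousOn (by fun_prop)
      have g7 : ContinuousOn (fun q : ℂ × ℝ × ℂ => q.2.1)
          (Str d ×ˢ (Icc (0:ℝ) 1 ×ˢ Metric.ball (0:ℂ) (d / 2))) :=
        Continuous.continuousOn (by fun_prop)
      refine ContinuousOn.sub ?_ ?_
      · refine hEc.comp (f := fun q : ℂ × ℝ × ℂ => (q.2.1, (q.1, P q.1 q.2.1 + (a + q.2.2))))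
          (g7.prodMk (g6.prodMk (g3.add g5))) ?_
        rintro q ⟨hq1, hq2, hq3⟩
        exact ⟨hq2, hPb _ hq2 _ hq1 _ (hau _ (by simpa using hq3))⟩
      · refine hEc.comp (f := fun q : ℂ × ℝ × ℂ => (q.2.1, (q.1, P q.1 q.2.1)))
          (g7.prodMk (g6.prodMk g3)) ?_
        rintro q ⟨hq1, hq2, hq3⟩
        exact ⟨hq2, hPb0 _ hq2 _ hq1⟩
    · intro z hz t ht u hu
      have g1 : P (z + 1) t = P z t := hPsh.per z (hsubd hz) t ht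
      have g2 := ((hEt t ht).2.1 _ (hPb t ht z hz _ (hau u (by simpa using hu)))).2
      have g3 := ((hEt t ht).2.1 _ (hPb0 t ht z hz)).2
      simp only at g2 g3
      show Ef W t (z + 1) (P (z + 1) t + (a + u)) - Ef W t (z + 1) (P (z + 1) t)
        = Ef W t z (P z t + (a + u)) - Ef W t z (P z t)
      rw [g1, g2, g3]
    · intro z hz t ht u hu
      have g2 := hM'0 t ht _ (hPb t ht z hz _ (hau u (by simpa using hu)))
      have g3 := hM'0 t ht _ (hPb0 t ht z hz)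
      have g4 : ‖N z t u‖ ≤ |M'| + |M'| := (norm_sub_le _ _).trans (add_le_add g2 g3)
      linarith
    · intro z hz t ht
      have g1 := ((hEt t ht).2.1 _ (hPb t ht z hz a (by linarith))).1
      simp only at g1
      have g2 : HasDerivAt (fun u => N z t u) (W t z (P z t + a)) 0 := by
        have g3 : HasDerivAt (fun u : ℂ => P z t + (a + u)) 1 0 :=
          ((hasDerivAt_id (0:ℂ)).const_add a).const_add (P z t)
        have g4 : HasDerivAt (fun y => Ef W t z y) (W t z (P z t + a)) (P z t + (a + 0)) := by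
          rw [add_zero]; exact g1
        have g5 := HasDerivAt.comp (0:ℂ) g4 g3
        rw [mul_one] at g5
        exact g5.sub_const _
      rw [g2.deriv]
      exact (hQd t ht z hz a (by linarith)).2.1.le
  have hN0 : ∀ z ∈ Str d, ∀ t ∈ Icc (0:ℝ) 1, ‖N z t 0 - 0‖ ≤ (|M| + 1) * ‖a‖ := by
    intro z hz t ht
    have g1 : ∀ y ∈ Metric.ball (P z t) d, HasDerivWithinAt (fun y => Ef W t z y) (W t z y)
        (Metric.ball (P z t) d) y := by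
      intro y hy
      have g2 := hPb t ht z hz (y - P z t) (by rwa [Metric.mem_ball, dist_eq_norm] at hy)
      rw [add_sub_cancel] at g2
      exact (((hEt t ht).2.1 _ g2).1).hasDerivWithinAt
    have g3 : ∀ y ∈ Metric.ball (P z t) d, ‖W t z y‖ ≤ |M| := by
      intro y hy
      have g2 := hPb t ht z hz (y - P z t) (by rwa [Metric.mem_ball, dist_eq_norm] at hy)
      rw [add_sub_cancel] at g2
      exact ((hWF.bd t ht _ g2).1).trans (le_abs_self _)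
    have g4 := (convex_ball (P z t) d).norm_image_sub_le_of_norm_hasDerivWithin_le g1 g3
      (Metric.mem_ball_self hd) (show P z t + a ∈ Metric.ball (P z t) d by
        rw [Metric.mem_ball, dist_eq_norm, add_sub_cancel_left]; linarith)
    rw [add_sub_cancel_left] at g4
    have g5 : N z t 0 - 0 = Ef W t z (P z t + a) - Ef W t z (P z t) := by
      simp [hN]
    rw [g5]
    calc _ ≤ |M| * ‖a‖ := g4
      _ ≤ (|M| + 1) * ‖a‖ := by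
        have := norm_nonneg a
        nlinarith
  obtain ⟨ψ, e1, hψ, -, hψb⟩ := hNw N hNL 1 ((|M| + 1) * ‖a‖) 0 le_rfl (by positivity) ha2 hN0
  have hd2ρ : Str (d / 2) ⊆ Str ρ0 := (Str_mono (by linarith)).trans hsubd
  have hd2d : Str (d / 2) ⊆ Str d := Str_mono (by linarith)
  have hdz : ∀ z ∈ Str (d / 2), ∀ t ∈ Icc (0:ℝ) 1,
      dz (fun z t => φ z t + ψ z t) z t = dz φ z t + dz ψ z t := by
    intro z hz t ht
    have g1 : DifferentiableAt ℂ (fun z' => φ z' t) z :=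
      (hH.sh.hol t ht).differentiableAt ((isOpen_Str ρ0).mem_nhds (hd2ρ hz))
    have g2 : DifferentiableAt ℂ (fun z' => ψ z' t) z :=
      (hψ.sh.hol t ht).differentiableAt ((isOpen_Str _).mem_nhds hz)
    exact deriv_add g1 g2
  have hdz' : ∀ z ∈ Str (d / 2), ∀ t ∈ Icc (0:ℝ) 1,
      c' + dz (fun z t => φ z t + ψ z t) z t = P z t + (a + dz ψ z t) := by
    intro z hz t ht
    rw [hdz z hz t ht, ← hP1 z (hd2ρ hz) t ht, hadef]
    ring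
  have hnorm : ∀ z ∈ Str (d / 2), ∀ t ∈ Icc (0:ℝ) 1, ‖a + dz ψ z t‖ < d :=
    fun z hz t ht => hau _ (hψb z hz t ht).2
  have hHS : HSol S W r₂ (fun z t => φ z t + ψ z t) (e + e1) c' (d / 2) := by
    refine ⟨⟨?_, ?_, ?_⟩, ?_, ?_, ?_⟩
    · intro t ht
      exact ((hH.sh.hol t ht).mono hd2ρ).add (hψ.sh.hol t ht)
    · exact ((hH.sh.cont).mono (prod_mono hd2ρ Subset.rfl)).add hψ.sh.cont
    · intro z hz t ht
      show φ (z + 1) t + ψ (z + 1) t = φ z t + ψ z t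
      rw [hH.sh.per z (hd2ρ hz) t ht, hψ.sh.per z hz t ht]
    · intro z hz
      show φ z 1 + ψ z 1 = φ z 0 + ψ z 0
      rw [hH.close z (hd2ρ hz), hψ.close z hz]
    · intro z hz t ht
      rw [hdz' z hz t ht]
      exact hPb t ht z (hd2d hz) _ (hnorm z hz t ht)
    · intro z hz t ht
      rw [hdz' z hz t ht]
      have g1 := hH.eq z (hd2ρ hz) t ht
      rw [hP1 z (hd2ρ hz) t ht] at g1
      have g2 := hψ.eq z hz t ht
      rw [Complex.ofReal_one, div_one] at g2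
      have g3 := g1.add g2
      have g4 : e + e1 - Ef W t z (P z t + (a + dz ψ z t))
          = e - Ef W t z (P z t) + (e1 - N z t (dz ψ z t)) := by
        simp only [hN]; ring
      rw [g4]
      exact g3
  have hQx : ∀ x : ℝ, ∀ t ∈ Icc (0:ℝ) 1, Q t (x : ℂ) (a + dz ψ (x : ℂ) t) := by
    intro x t ht
    exact hQd t ht x (ofReal_mem_Str hd x) _ (hnorm x (ofReal_mem_Str (half_pos hd) x) t ht)
  obtain ⟨ρ'', hρ'', -, hTor⟩ := hFP δ (d / 2) (fun z t => φ z t + ψ z t) (e + e1) c' hδf'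
    (half_pos hd) hHS (by
      intro x t ht
      rw [hdz' x (ofReal_mem_Str (half_pos hd) x) t ht]
      obtain ⟨q1, q2, q3, q4, q5⟩ := hQx x t ht
      simp only [Complex.ofReal_re] at q4 q5
      exact ⟨hh.trans q2, q3.le, q4.le, q5.le⟩)
  refine ⟨_, ρ'', hTor, ?_⟩
  intro x t ht
  obtain ⟨q1, q2, q3, q4, q5⟩ := hQx x t ht
  simp only [Complex.ofReal_re] at q4 q5
  show (W t x (c' + dz (fun z t => φ z t + ψ z t) (x : ℂ) t)).im < δ ∧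
    S.V S.a x t < (W t x (c' + dz (fun z t => φ z t + ψ z t) (x : ℂ) t)).re ∧
    (W t x (c' + dz (fun z t => φ z t + ψ z t) (x : ℂ) t)).re < S.V S.b x t
  rw [hdz' x (ofReal_mem_Str (half_pos hd) x) t ht]
  exact ⟨q3, q4, q5⟩

end Pool.Agent.Helper31.FT
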